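import Pool.Agent.N160.KM.GDDa
import Pool.Agent.N483.KM.StmY

/-!
# Project KM, part GDD (helper483): the Poincaré inequality in bounded dimension
Author: helper160.
-/

set_option autoImplicit false

namespace Pool.Agent.N160.KM.GDD

open MeasureTheory Set Filter Topology
open scoped ENNReal InnerProductSpace
open Pool.Agent.R754.KG (E)
open Pool.Agent.N483.KM

theorem gd_zero (G : Set (E 0 ≃ₗᵢ[ℝ] E 0)) : Gd 1 G := by
  intro w hw _ _ _ _
  have hw' : Pool.Agent.R751.MB.Adm (κ := Fin 0) w := ⟨hw.nonneg, hw.int, hw.pos, hw.meas⟩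
  apply AP_of hw'
  intro S hS ha f hf hB hL
  refine ⟨f 0, ?_⟩
  have h1 : ∀ x : E 0, f x = f 0 := fun x => by rw [Subsingleton.elim x 0]
  simp only [h1, sub_self]
  simp only [ne_eq, OfNat.ofNat_ne_zero, not_false_eq_true, zero_pow, zero_mul, integral_zero,
    one_mul]
  exact integral_nonneg fun x => mul_nonneg (by positivity) (hw.nonneg _)

theorem gd_pos (h1 : S_PBA) (h2 : S_PFR) (h3 : S_PIS) (k : ℕ) (hk : 1 ≤ k) :
    ∃ A : ℝ, 0 < A ∧ ∀ G : Set (E k ≃ₗᵢ[ℝ] E k), Gd A G := by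
  obtain ⟨C, hC, H2⟩ := h2 k hk
  obtain ⟨R, hR, H3⟩ := h3 k
  refine ⟨(1 + C) * (2 * (2 * R) ^ 2) + C * R ^ 2, by positivity, ?_⟩
  intro G w hw hlc hcont hpos _
  have hw' : Pool.Agent.R751.MB.Adm (κ := Fin k) w := ⟨hw.nonneg, hw.int, hw.pos, hw.meas⟩
  apply AP_of hw'
  intro S hS ha f hf hB hL
  have hPW : PW (k := k) fun z => w (S.symm z) := by
    refine ⟨⟨ha.nonneg, ha.int, ha.pos, ha.meas⟩, ?_, hcont.comp S.symm.continuous,
      fun x => hpos _⟩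
    intro x y t ht0 ht1
    have := hlc (S.symm x) (S.symm y) t ht0 ht1
    simpa using this
  have hBF : BF (k := k) f := ⟨hf, hB, hL⟩
  obtain ⟨x0, hx0⟩ := H3 (fun z => w (S.symm z)) hPW hS
  obtain ⟨c, hc⟩ := h1 k (fun z => w (S.symm z)) f x0 (2 * R) (by positivity) hPW hBF
  refine ⟨c, ?_⟩
  have hfd : ∀ x, fderiv ℝ (fun x => f x - c) x = fderiv ℝ f x := fun x => fderiv_sub_const c
  have hBF' : BF (k := k) fun x => f x - c := by
    refine ⟨hf.sub contDiff_const, ?_, ?_⟩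
    · obtain ⟨B, hB⟩ := hB
      exact ⟨B + |c|, fun x => (abs_sub _ _).trans (add_le_add_left (hB x) _)⟩
    · obtain ⟨L, hL⟩ := hL
      exact ⟨L, fun x => by rw [hfd]; exact hL x⟩
  have h4 := H2 (fun z => w (S.symm z)) (fun x => f x - c) x0 R hR hPW hBF' hx0
  simp only [hfd] at h4
  obtain ⟨B, hB⟩ := hB
  obtain ⟨L, hL⟩ := hL
  exact glue ha f hf B L hB hL c _ C _ (Metric.closedBall x0 (2 * R))
    Metric.isClosed_closedBall.measurableSet (by positivity) hC.le hc h4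

theorem gd_mono {A A' : ℝ} (h : A ≤ A') {k : ℕ} {G : Set (E k ≃ₗᵢ[ℝ] E k)} (H : Gd A G) :
    Gd A' G := by
  intro w h1 h2 h3 h4 h5
  obtain ⟨h6, S, h7, h8⟩ := H w h1 h2 h3 h4 h5
  refine ⟨h6, S, h7, fun g hg hb hd => (h8 g hg hb hd).trans ?_⟩
  refine mul_le_mul_of_nonneg_right h ?_
  exact div_nonneg (integral_nonneg fun x => mul_nonneg (by positivity) (h6.nonneg x)) h6.pos.le

theorem t_GDD (h1 : S_PBA) (h2 : S_PFR) (h3 : S_PIS) : S_GDD := by
  have key : ∀ k : ℕ, ∃ A : ℝ, 0 < A ∧ ∀ G : Set (E k ≃ₗᵢ[ℝ] E k), Gd A G := by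
    intro k
    rcases Nat.eq_zero_or_pos k with rfl | hk
    · exact ⟨1, one_pos, gd_zero⟩
    · exact gd_pos h1 h2 h3 k hk
  choose A hA H using key
  intro b
  refine ⟨∑ k ∈ Finset.range (b + 1), A k,
    Finset.sum_pos (fun k _ => hA k) ⟨0, Finset.mem_range.2 (Nat.succ_pos b)⟩, ?_⟩
  intro k hk G
  refine gd_mono ?_ (H k G)
  exact Finset.single_le_sum (f := A) (fun i _ => (hA i).le)
    (Finset.mem_range.2 (Nat.lt_succ_of_le hk))

end Pool.Agent.N160.KM.GDD
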