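import Pool.Agent.R751.MB.Lin
import Pool.Agent.R751.MB.Wht

/-!
# Project KM, part GDD (helper483): the general argument
Author: helper160.
-/

set_option autoImplicit false

namespace Pool.Agent.N160.KM.GDD

open MeasureTheory Set Filter Topology
open scoped ENNReal InnerProductSpace
open Pool.Agent.R751.MB

section

variable {κ : Type} [Fintype κ] {w : Eu κ → ℝ}

theorem bdd_int (h : Adm w) (v : Eu κ → ℝ) (hv : Measurable v)
    (B : ℝ) (hb : ∀ x, |v x| ≤ B) : Integrable fun x => v x * w x := by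
  refine Integrable.mono' (h.int.const_mul B) (hv.mul h.meas).aestronglyMeasurable
    (Eventually.of_forall fun x => ?_)
  rw [Real.norm_eq_abs, abs_mul, abs_of_nonneg (h.nonneg x)]
  have hB : 0 ≤ B := (abs_nonneg _).trans (hb x)
  calc |v x| * w x ≤ B * (1 + ‖x‖ ^ 2) * w x := by
        refine mul_le_mul_of_nonneg_right ((hb x).trans ?_) (h.nonneg x)
        nlinarith [sq_nonneg ‖x‖]
    _ = _ := by ring

theorem one_int (h : Adm w) : Integrable w := by
  have := bdd_int h (fun _ => 1) measurable_const 1 (fun x => by simp)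
  simpa using this

/-- The variance is at most the second moment about any point. -/
theorem VW_le (h : Adm w) (f : Eu κ → ℝ) (hf : Measurable f) (B : ℝ) (hb : ∀ x, |f x| ≤ B)
    (c : ℝ) : VW w f ≤ (∫ x, (f x - c) ^ 2 * w x) / ∫ x, w x := by
  have i1 : Integrable fun x => f x * w x := bdd_int h f hf B hb
  have i2 : Integrable fun x => f x ^ 2 * w x := by
    refine bdd_int h (fun x => f x ^ 2) (hf.pow_const 2) (B ^ 2) fun x => ?_
    rw [abs_pow]
    exact pow_le_pow_left₀ (abs_nonneg _) (hb x) 2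
  have i3 := one_int h
  have e1 : ∫ x, (f x - c) ^ 2 * w x =
      (∫ x, f x ^ 2 * w x) - 2 * c * (∫ x, f x * w x) + c ^ 2 * ∫ x, w x := by
    have e2 : ∀ x, (f x - c) ^ 2 * w x = f x ^ 2 * w x - 2 * c * (f x * w x) + c ^ 2 * w x :=
      fun x => by ring
    simp only [e2]
    have j0 : Integrable fun x => 2 * c * (f x * w x) := i1.const_mul _
    have j1 : Integrable fun x => f x ^ 2 * w x - 2 * c * (f x * w x) := i2.sub j0
    have j2 : Integrable fun x => c ^ 2 * w x := i3.const_mul _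
    rw [integral_add j1 j2, integral_sub i2 j0, integral_const_mul, integral_const_mul]
  rw [e1]
  unfold VW EW
  have hm := h.pos
  set m := ∫ x, w x
  set a := ∫ x, f x * w x
  set s := ∫ x, f x ^ 2 * w x
  have e3 : (s - 2 * c * a + c ^ 2 * m) / m = s / m - (a / m) ^ 2 + (a / m - c) ^ 2 := by
    field_simp
    ring
  rw [e3]
  nlinarith [sq_nonneg (a / m - c)]

/-- The variance of a constant. -/
theorem VW_const (h : Adm w) (c : ℝ) : VW w (fun _ => c) = 0 := by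
  unfold VW EW
  have hm := h.pos.ne'
  rw [integral_const_mul, integral_const_mul]
  field_simp
  ring

/-- From the whitened weight to the Poincaré inequality. -/
theorem AP_of (hw : Adm w) {A : ℝ} (H : ∀ S : Eu κ ≃L[ℝ] Eu κ,
    (∀ θ, VW (fun z => w (S.symm z)) (fun x => ⟪x, θ⟫_ℝ) = ‖θ‖ ^ 2) →
    Adm (fun z => w (S.symm z)) →
    ∀ f : Eu κ → ℝ, ContDiff ℝ 1 f → (∃ B : ℝ, ∀ x, |f x| ≤ B) →
      (∃ L : ℝ, ∀ x, ‖fderiv ℝ f x‖ ≤ L) →
      ∃ c : ℝ, ∫ x, (f x - c) ^ 2 * w (S.symm x) ≤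
        A * ∫ x, ‖fderiv ℝ f x‖ ^ 2 * w (S.symm x)) : AP A w := by
  obtain ⟨S, hS, -⟩ := wht κ w hw
  refine ⟨hw, S, hS, fun f hf hB hL => ?_⟩
  have ha : Adm fun z => w (S.symm z) := LinAux.adm_comp S.toLinearEquiv hw
  have hiso : ∀ θ, VW (fun z => w (S.symm z)) (fun x => ⟪x, θ⟫_ℝ) = ‖θ‖ ^ 2 := by
    intro θ
    rw [← hS θ]
    exact LinAux.VW_comp S.toLinearEquiv w fun x => ⟪x, θ⟫_ℝ
  obtain ⟨c, hc⟩ := H S hiso ha f hf hB hL
  have e1 : VW w (fun x => f (S x)) = VW (fun z => w (S.symm z)) f :=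
    (LinAux.VW_comp S.toLinearEquiv w f).symm
  have e2 : EW w (fun x => ‖fderiv ℝ f (S x)‖ ^ 2) =
      EW (fun z => w (S.symm z)) (fun x => ‖fderiv ℝ f x‖ ^ 2) :=
    (LinAux.EW_comp S.toLinearEquiv w fun x => ‖fderiv ℝ f x‖ ^ 2).symm
  rw [e1, e2]
  obtain ⟨B, hB⟩ := hB
  refine (VW_le ha f hf.continuous.measurable B hB c).trans ?_
  unfold EW
  rw [← mul_div_assoc]
  exact div_le_div_of_nonneg_right hc ha.pos.le

/-- The sum of the two estimates. -/
theorem glue (h : Adm w) (f : Eu κ → ℝ) (hf : ContDiff ℝ 1 f) (B L : ℝ) (hb : ∀ x, |f x| ≤ B)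
    (hL : ∀ x, ‖fderiv ℝ f x‖ ≤ L) (c a C e : ℝ) (D : Set (Eu κ)) (hD : MeasurableSet D)
    (ha : 0 ≤ a) (hC : 0 ≤ C)
    (h1 : ∫ x in D, (f x - c) ^ 2 * w x ≤ a * ∫ x in D, ‖fderiv ℝ f x‖ ^ 2 * w x)
    (h2 : ∫ x in Dᶜ, (f x - c) ^ 2 * w x ≤ C * (∫ x in D, (f x - c) ^ 2 * w x) +
      e * ∫ x, ‖fderiv ℝ f x‖ ^ 2 * w x) :
    ∫ x, (f x - c) ^ 2 * w x ≤ ((1 + C) * a + e) * ∫ x, ‖fderiv ℝ f x‖ ^ 2 * w x := by
  have i1 : Integrable fun x => (f x - c) ^ 2 * w x := by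
    refine bdd_int h (fun x => (f x - c) ^ 2)
      ((hf.continuous.measurable.sub_const c).pow_const 2) ((B + |c|) ^ 2) fun x => ?_
    rw [abs_pow]
    refine pow_le_pow_left₀ (abs_nonneg _) ?_ 2
    exact (abs_sub _ _).trans (add_le_add_left (hb x) _)
  have i2 : Integrable fun x => ‖fderiv ℝ f x‖ ^ 2 * w x := by
    refine bdd_int h (fun x => ‖fderiv ℝ f x‖ ^ 2)
      ((hf.continuous_fderiv (by norm_num)).norm.measurable.pow_const 2) (L ^ 2) fun x => ?_
    rw [abs_pow, abs_norm]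
    exact pow_le_pow_left₀ (norm_nonneg _) (hL x) 2
  have e1 := integral_add_compl hD i1
  have e2 : ∫ x in D, ‖fderiv ℝ f x‖ ^ 2 * w x ≤ ∫ x, ‖fderiv ℝ f x‖ ^ 2 * w x :=
    setIntegral_le_integral i2 (Eventually.of_forall fun x => mul_nonneg (by positivity)
      (h.nonneg x))
  have e3 : ∫ x in D, (f x - c) ^ 2 * w x ≤ a * ∫ x, ‖fderiv ℝ f x‖ ^ 2 * w x :=
    h1.trans (mul_le_mul_of_nonneg_left e2 ha)
  rw [← e1]
  have e4 := mul_le_mul_of_nonneg_left e3 hC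
  nlinarith

end

end Pool.Agent.N160.KM.GDD
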